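import Pool.Agent.Helper27.NC.Defs
import Pool.Agent.Helper78.NB.Root

/-!
# B3': a block used by the result never gets ripe
-/

set_option autoImplicit false

namespace Pool.Agent.Helper78.NC

open Pool.Agent.Helper19.NF (Prog obs see val CF)
open Pool.Agent.Helper27.NB (rd New Rip)
open Pool.Agent.Helper27.NC
open Pool.Agent.Helper78.NF (pick pick_mem outputs_unique val_succ val_congr)
open Pool.Agent.Helper78.NB (obs_congr outputs_congr obs_eq_inl all_read_le pickX pickX_spec)

/-! ## Words with a given sum -/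

theorem word_count {D B Z : Type} [Fintype D] [DecidableEq D] [AddCommGroup B] [Fintype B] (s : (D → B) → B) (c : D)
    (hs : ∀ v b, s (Function.update v c (v c + b)) = s v + b) (φ : B → Z) (z : Z) (p : ℕ)
    (hφ : Nat.card {b // φ b = z} ≤ p) :
    Nat.card {v : D → B // φ (s v) = z} * Fintype.card B ≤ p * Nat.card (D → B) := by
  classical
  rw [Nat.card_eq_fintype_card, Fintype.card_subtype, ← Finset.card_univ (α := B), ← Finset.card_product,
    Nat.card_eq_fintype_card, ← Finset.card_univ (α := D → B)]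
  rw [Nat.card_eq_fintype_card, Fintype.card_subtype] at hφ
  apply Finset.card_le_mul_card_image_of_maps_to (f := fun x : (D → B) × B => Function.update x.1 c (x.1 c + x.2))
    (fun _ _ => Finset.mem_univ _)
  intro v' _
  refine le_trans ?_ hφ
  apply Finset.card_le_card_of_injOn (fun x => s x.1)
  · intro x hx
    rw [Finset.mem_coe, Finset.mem_filter, Finset.mem_product, Finset.mem_filter] at hx
    rw [Finset.mem_coe, Finset.mem_filter]
    exact ⟨Finset.mem_univ _, hx.1.1.2⟩
  · intro x hx y hy hxy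
    rw [Finset.mem_coe, Finset.mem_filter] at hx hy
    have h1 : s v' = s x.1 + x.2 := by rw [← hs, ← hx.2]
    have h2 : s v' = s y.1 + y.2 := by rw [← hs, ← hy.2]
    have h3 : s x.1 = s y.1 := hxy
    have h4 : x.2 = y.2 := by
      rw [h1, h3] at h2
      exact add_left_cancel h2
    refine Prod.ext ?_ h4
    have h5 : Function.update x.1 c (x.1 c + x.2) = Function.update y.1 c (y.1 c + y.2) := hx.2.trans hy.2.symm
    funext d
    have h6 := congrFun h5 d
    by_cases hd : d = c
    · subst hd
      rw [Function.update_self, Function.update_self, h4] at h6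
      exact add_right_cancel h6
    · rwa [Function.update_of_ne hd, Function.update_of_ne hd] at h6

/-! ## The root -/

section root

variable {U D B Λ F Z : Type} [Fintype D] [AddCommGroup B] [Fintype Λ] {σ S ρ h a M : ℕ}

/-- the directions in which the block below the result never gets ripe -/
def missD (H : Hid Λ F (D → B) ρ h M) (a : ℕ) (g : D → Equiv.Perm U) (x0 : U → B) (m : ℕ)
    (P : Prog (B × Λ) F Z σ S) (q : Fin S) (w : U) (J : B × Λ → F) : Set D :=
  {c | ∀ t, ¬ Rip a (obs P J q) (val g x0 (wd H J) m (g c w)) t}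

/-- the block which is changed -/
noncomputable def blk [Nonempty D] (H : Hid Λ F (D → B) ρ h M) (a : ℕ) (g : D → Equiv.Perm U) (x0 : U → B) (m : ℕ)
    (P : Prog (B × Λ) F Z σ S) (q : Fin S) (w : U) (J : B × Λ → F) : B :=
  val g x0 (wd H J) m (g (pick (missD H a g x0 m P q w J)) w)

/-- the symbols of the block which are read -/
def rdset [Nonempty D] (H : Hid Λ F (D → B) ρ h M) (a : ℕ) (g : D → Equiv.Perm U) (x0 : U → B) (m : ℕ)
    (P : Prog (B × Λ) F Z σ S) (q : Fin S) (w : U) (J : B × Λ → F) : Set Λ :=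
  {l | ∃ j, obs P J q j = Sum.inl (blk H a g x0 m P q w J, l)}

/-- the places of the block which are changed -/
noncomputable def plc [Nonempty D] (H : Hid Λ F (D → B) ρ h M) (a : ℕ) (g : D → Equiv.Perm U) (x0 : U → B) (m : ℕ)
    (P : Prog (B × Λ) F Z σ S) (q : Fin S) (w : U) (J : B × Λ → F) : Finset Λ :=
  pickX h (rdset H a g x0 m P q w J)

variable [Nonempty D] {H : Hid Λ F (D → B) ρ h M} {g : D → Equiv.Perm U} {x0 : U → B} {m : ℕ}
  {P : Prog (B × Λ) F Z σ S} {q : Fin S} {w : U} {J J' : B × Λ → F}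

/-- the input with other symbols at these places has the same computation, the same block and the same places -/
theorem sim_same (hah : a + h = Fintype.card Λ) (hCF : CF g x0 (m + 1) (wd H J))
    (hm : pick (missD H a g x0 m P q w J) ∈ missD H a g x0 m P q w J)
    (hsim : ∀ c : B × Λ, ¬ (c.1 = blk H a g x0 m P q w J ∧ c.2 ∈ plc H a g x0 m P q w J) → J' c = J c) :
    (plc H a g x0 m P q w J).card = h ∧ (∀ c, P.Asks J q c → J c = J' c) ∧
    (∀ i, i ≤ m → ∀ u, val g x0 (wd H J') i u = val g x0 (wd H J) i u) ∧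
    blk H a g x0 m P q w J' = blk H a g x0 m P q w J ∧ plc H a g x0 m P q w J' = plc H a g x0 m P q w J := by
  have hle : (rdset H a g x0 m P q w J).ncard ≤ a := all_read_le a (obs P J q) _ hm
  obtain ⟨hX1, hX2⟩ := pickX_spec hah (rdset H a g x0 m P q w J) hle
  have hask : ∀ c, P.Asks J q c → J c = J' c := by
    intro c hc
    refine (hsim c ?_).symm
    rintro ⟨h1, h2⟩
    apply hX2 _ h2
    obtain ⟨j, hj⟩ := (obs_eq_inl P J q c).mpr hc
    refine ⟨j, ?_⟩
    rw [hj, ← h1]
  have hval : ∀ i, i ≤ m → ∀ u, val g x0 (wd H J') i u = val g x0 (wd H J) i u := by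
    apply val_congr
    intro i hi u
    unfold wd
    congr 1
    funext l
    refine hsim _ ?_
    rintro ⟨h1, _⟩
    have h2 : val g x0 (wd H J) i u = val g x0 (wd H J) m (g (pick (missD H a g x0 m P q w J)) w) := h1
    have h3 := (hCF i (by omega) m (by omega) _ _ h2).1
    omega
  have hobs := obs_congr P J J' q hask
  have h1 : missD H a g x0 m P q w J' = missD H a g x0 m P q w J := by
    unfold missD
    rw [hobs]
    simp only [hval m le_rfl]
  have h2 : blk H a g x0 m P q w J' = blk H a g x0 m P q w J := by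
    unfold blk
    rw [h1, hval m le_rfl]
  have h3 : rdset H a g x0 m P q w J' = rdset H a g x0 m P q w J := by
    unfold rdset
    rw [h2, hobs]
  refine ⟨hX1, hask, hval, h2, ?_⟩
  unfold plc
  rw [h3]

open Classical in
/-- the input without the symbols at these places -/
noncomputable def zro (H : Hid Λ F (D → B) ρ h M) (a : ℕ) (g : D → Equiv.Perm U) (x0 : U → B) (m : ℕ)
    (P : Prog (B × Λ) F Z σ S) (q : Fin S) (w : U) (f0 : F) (J : B × Λ → F) : B × Λ → F :=
  fun c => if c.1 = blk H a g x0 m P q w J ∧ c.2 ∈ plc H a g x0 m P q w J then f0 else J c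

theorem zro_of {f0 : F} (c : B × Λ) (hc : ¬ (c.1 = blk H a g x0 m P q w J ∧ c.2 ∈ plc H a g x0 m P q w J)) :
    zro H a g x0 m P q w f0 J c = J c := if_neg hc

theorem zro_in {f0 : F} (c : B × Λ) (hc : c.1 = blk H a g x0 m P q w J ∧ c.2 ∈ plc H a g x0 m P q w J) :
    zro H a g x0 m P q w f0 J c = f0 := if_pos hc

/-- the number of the inputs with other symbols at these places -/
theorem card_fill [Fintype B] [Fintype F] (hah : a + h = Fintype.card Λ) (hCF : CF g x0 (m + 1) (wd H J))
    (hm : pick (missD H a g x0 m P q w J) ∈ missD H a g x0 m P q w J) (f0 : F) :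
    Nat.card F ^ h ≤ Nat.card {J' // zro H a g x0 m P q w f0 J' = zro H a g x0 m P q w f0 J} := by
  classical
  obtain ⟨h1, _⟩ := sim_same (J' := J) hah hCF hm (fun _ _ => rfl)
  have h2 : Nat.card (plc H a g x0 m P q w J → F) = Nat.card F ^ h := by
    rw [Nat.card_fun, Nat.card_eq_fintype_card (α := plc H a g x0 m P q w J), Fintype.card_coe, h1]
  rw [← h2]
  let fil : (plc H a g x0 m P q w J → F) → B × Λ → F := fun y c =>
    if hc : c.1 = blk H a g x0 m P q w J ∧ c.2 ∈ plc H a g x0 m P q w J then y ⟨c.2, hc.2⟩ else J c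
  have h3 : ∀ y, zro H a g x0 m P q w f0 (fil y) = zro H a g x0 m P q w f0 J := by
    intro y
    obtain ⟨_, _, _, s1, s2⟩ := sim_same (J' := fil y) hah hCF hm (fun c hc => dif_neg hc)
    funext c
    unfold zro
    rw [s1, s2]
    by_cases hc : c.1 = blk H a g x0 m P q w J ∧ c.2 ∈ plc H a g x0 m P q w J
    · rw [if_pos hc, if_pos hc]
    · rw [if_neg hc, if_neg hc]
      exact dif_neg hc
  refine Nat.card_le_card_of_injective (fun y => ⟨fil y, h3 y⟩) ?_
  intro y y' e
  have e1 : fil y = fil y' := congrArg Subtype.val e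
  funext l
  have e2 := congrFun e1 (blk H a g x0 m P q w J, l.1)
  have hc : (blk H a g x0 m P q w J, l.1).1 = blk H a g x0 m P q w J ∧
      (blk H a g x0 m P q w J, l.1).2 ∈ plc H a g x0 m P q w J := ⟨rfl, l.2⟩
  have e3 : fil y (blk H a g x0 m P q w J, l.1) = y l := dif_pos hc
  have e4 : fil y' (blk H a g x0 m P q w J, l.1) = y' l := dif_pos hc
  rw [e3, e4] at e2
  exact e2

end root

/-- B3' -/
theorem root_bound {U D B Λ F Z : Type} [Fintype U] [Fintype D] [DecidableEq D] [AddCommGroup B] [Fintype B] [Fintype Λ]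
    [Fintype F] {σ S ρ h a M : ℕ} [Nonempty D] (H : Hid Λ F (D → B) ρ h M) (hah : a + h = Fintype.card Λ)
    (g : D → Equiv.Perm U)
    (x0 : U → B) (n : ℕ) (hn : 1 ≤ n) (P : Prog (B × Λ) F Z σ S) (q : Fin S) (w : U) (φ : B → Z) (p : ℕ)
    (hφ : ∀ z, Nat.card {b // φ b = z} ≤ p) :
    M * (Nat.card {J : B × Λ → F // CF g x0 n (wd H J) ∧ P.Outputs J q (φ (val g x0 (wd H J) n w)) ∧
      ∃ c, ∀ t, ¬ Rip a (obs P J q) (val g x0 (wd H J) (n - 1) (g c w)) t} * Fintype.card B) ≤
      (M + 1) * (p * Nat.card (B × Λ → F)) := by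
  classical
  obtain ⟨m, rfl⟩ : ∃ m, n = m + 1 := ⟨n - 1, by omega⟩
  rw [Nat.add_sub_cancel, Nat.card_eq_fintype_card, Fintype.card_subtype, Nat.card_eq_fintype_card]
  set X : Finset (B × Λ → F) := Finset.univ.filter (fun J => CF g x0 (m + 1) (wd H J) ∧
    P.Outputs J q (φ (val g x0 (wd H J) (m + 1) w)) ∧
      ∃ c, ∀ t, ¬ Rip a (obs P J q) (val g x0 (wd H J) m (g c w)) t) with hX
  have hXm : ∀ J ∈ X, CF g x0 (m + 1) (wd H J) ∧ P.Outputs J q (φ (val g x0 (wd H J) (m + 1) w)) ∧
      pick (missD H a g x0 m P q w J) ∈ missD H a g x0 m P q w J := by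
    intro J hJ
    obtain ⟨h1, h2, h3⟩ := (Finset.mem_filter.mp hJ).2
    exact ⟨h1, h2, pick_mem h3⟩
  rcases isEmpty_or_nonempty F with hF | ⟨⟨f0⟩⟩
  · -- no symbols: no inputs, or no places
    rcases isEmpty_or_nonempty Λ with hΛ | ⟨⟨l0⟩⟩
    · have h0 : h = 0 := by
        have : Fintype.card Λ = 0 := Fintype.card_eq_zero
        omega
      -- the inputs are all equal, so `F` plays no role
      have hc := H.card
      rw [h0, pow_zero, mul_one, Nat.card_fun, Nat.card_eq_fintype_card (α := D),
        Nat.card_eq_fintype_card (α := B)] at hc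
      have hall : ∀ inst : Fintype (B × Λ → F), @Fintype.card _ inst = 1 := fun _ => Fintype.card_unique
      have hXle : X.card ≤ 1 := by
        refine (Finset.card_le_univ X).trans (le_of_eq (hall _))
      rcases Nat.eq_zero_or_pos X.card with hX0 | hX0
      · rw [hX0, zero_mul, mul_zero]
        exact Nat.zero_le _
      · obtain ⟨J, hJ⟩ := Finset.card_pos.mp hX0
        have hp := hφ (φ (val g x0 (wd H J) (m + 1) w))
        have hp1 : 1 ≤ p := by
          refine le_trans ?_ hp
          have : Nonempty {b // φ b = φ (val g x0 (wd H J) (m + 1) w)} := ⟨⟨_, rfl⟩⟩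
          exact Nat.card_pos
        have hρ : 1 ≤ ρ := by
          have := (H.res ∅ (fun l => (hΛ.false l).elim)).2
          omega
        have hBD : Fintype.card B ≤ Fintype.card B ^ Fintype.card D :=
          Nat.le_self_pow Fintype.card_ne_zero _
        rw [hall, mul_one]
        calc M * (X.card * Fintype.card B) ≤ M * (1 * Fintype.card B ^ Fintype.card D) :=
              Nat.mul_le_mul_left _ (Nat.mul_le_mul hXle hBD)
          _ ≤ M * (ρ * Fintype.card B ^ Fintype.card D) :=
              Nat.mul_le_mul_left _ (Nat.mul_le_mul_right _ hρ)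
          _ ≤ M + 1 := hc
          _ ≤ (M + 1) * p := Nat.le_mul_of_pos_right _ hp1
    · have : IsEmpty (B × Λ → F) := ⟨fun J => hF.false (J (0, l0))⟩
      have hX0 : X = ∅ := Finset.eq_empty_of_isEmpty X
      rw [hX0, Finset.card_empty, zero_mul, mul_zero]
      exact Nat.zero_le _
  -- one class
  have hone : ∀ K ∈ X.image (zro H a g x0 m P q w f0),
      M * ((X.filter (fun J => zro H a g x0 m P q w f0 J = K)).card * Fintype.card B) ≤
        (M + 1) * (p * (Finset.univ.filter (fun J => zro H a g x0 m P q w f0 J = K)).card) := by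
    intro K hK
    obtain ⟨J0, hJ0, rfl⟩ := Finset.mem_image.mp hK
    obtain ⟨hCF0, hO0, hm0⟩ := hXm J0 hJ0
    obtain ⟨K, hKdef⟩ : ∃ K, K = zro H a g x0 m P q w f0 J0 := ⟨_, rfl⟩
    rw [← hKdef]
    obtain ⟨hY, _, hvK, hbK, hpK⟩ := sim_same (J' := zro H a g x0 m P q w f0 J0) hah hCF0 hm0
      (fun c hc => zro_of c hc)
    rw [← hKdef] at hvK hbK hpK
    obtain ⟨b0, hb0⟩ : ∃ b0, b0 = blk H a g x0 m P q w K := ⟨_, rfl⟩
    obtain ⟨Y, hYK⟩ : ∃ Y, Y = plc H a g x0 m P q w K := ⟨_, rfl⟩
    rw [← hpK, ← hYK] at hY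
    -- the members of the class
    have hmem : ∀ J ∈ X, zro H a g x0 m P q w f0 J = K →
        blk H a g x0 m P q w J = b0 ∧ (∀ c : B × Λ, ¬ (c.1 = b0 ∧ c.2 ∈ Y) → J c = K c) ∧
        (∀ i, i ≤ m → ∀ u, val g x0 (wd H J) i u = val g x0 (wd H K) i u) ∧
        P.Outputs K q (φ (val g x0 (wd H J) (m + 1) w)) := by
      intro J hJ hJK
      obtain ⟨hCF, hO, hm⟩ := hXm J hJ
      obtain ⟨_, s1, s2, s3, s4⟩ := sim_same (J' := zro H a g x0 m P q w f0 J) hah hCF hm
        (fun c hc => zro_of c hc)
      rw [hJK] at s1 s2 s3 s4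
      rw [← hb0] at s3
      rw [← hYK] at s4
      refine ⟨s3.symm, fun c hc => ?_, fun i hi u => (s2 i hi u).symm, outputs_congr P J K q s1 hO⟩
      rw [← hJK]
      exact (zro_of c (by rw [← s3, ← s4]; exact hc)).symm
    obtain ⟨hb00, _, _, hO00⟩ := hmem J0 hJ0 hKdef.symm
    set z0 := φ (val g x0 (wd H J0) (m + 1) w) with hz0
    -- the result as a function of the word of the block
    let s : (D → B) → B := fun v => ∑ d, if val g x0 (wd H K) m (g d w) = b0 then v d
      else wd H K (val g x0 (wd H K) m (g d w)) d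
    have hs1 : ∀ J ∈ X, zro H a g x0 m P q w f0 J = K → s (wd H J b0) = val g x0 (wd H J) (m + 1) w := by
      intro J hJ hJK
      obtain ⟨_, s1, s2, _⟩ := hmem J hJ hJK
      rw [val_succ]
      refine Finset.sum_congr rfl fun d _ => ?_
      rw [s2 m le_rfl]
      by_cases hd : val g x0 (wd H K) m (g d w) = b0
      · rw [if_pos hd, hd]
      · rw [if_neg hd]
        have e1 : wd H K (val g x0 (wd H K) m (g d w)) = wd H J (val g x0 (wd H K) m (g d w)) :=
          congrArg H.dec (funext fun l => (s1 (val g x0 (wd H K) m (g d w), l) (fun e => hd e.1)).symm)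
        rw [e1]
    obtain ⟨c, hc⟩ : ∃ c, val g x0 (wd H K) m (g c w) = b0 := by
      refine ⟨pick (missD H a g x0 m P q w J0), ?_⟩
      rw [hvK m le_rfl]
      exact hb00
    have hs2 : ∀ v b, s (Function.update v c (v c + b)) = s v + b := by
      intro v b
      have e1 : ∀ v, s v = v c + ∑ d ∈ Finset.univ.erase c, if val g x0 (wd H K) m (g d w) = b0 then v d
          else wd H K (val g x0 (wd H K) m (g d w)) d := by
        intro v
        show (∑ d, if val g x0 (wd H K) m (g d w) = b0 then v d else _) = _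
        rw [← Finset.add_sum_erase _ _ (Finset.mem_univ c), if_pos hc]
      rw [e1, e1 v, Function.update_self]
      have e2 : (∑ d ∈ Finset.univ.erase c, if val g x0 (wd H K) m (g d w) = b0 then
          Function.update v c (v c + b) d else wd H K (val g x0 (wd H K) m (g d w)) d) =
          ∑ d ∈ Finset.univ.erase c, if val g x0 (wd H K) m (g d w) = b0 then v d
          else wd H K (val g x0 (wd H K) m (g d w)) d := by
        refine Finset.sum_congr rfl fun d hd => ?_
        rw [Function.update_of_ne (Finset.ne_of_mem_erase hd)]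
      rw [e2]
      abel
    have hcount := word_count s c hs2 φ z0 p (hφ z0)
    -- the class is small
    have hfib : (X.filter (fun J => zro H a g x0 m P q w f0 J = K)).card ≤
        Nat.card {v : D → B // φ (s v) = z0} * ρ := by
      have e1 : Nat.card {v : D → B // φ (s v) = z0} * ρ =
          (Finset.univ : Finset ({v : D → B // φ (s v) = z0} × Fin ρ)).card := by
        rw [Finset.card_univ, Fintype.card_prod, Fintype.card_fin, Nat.card_eq_fintype_card]
      rw [e1]
      have hval0 : ∀ J ∈ X, zro H a g x0 m P q w f0 J = K → φ (s (wd H J b0)) = z0 := by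
        intro J hJ hJK
        rw [hs1 J hJ hJK]
        exact outputs_unique P K q (hmem J hJ hJK).2.2.2 hO00
      have hne : Nonempty {v : D → B // φ (s v) = z0} := ⟨⟨_, hval0 J0 hJ0 hKdef.symm⟩⟩
      apply Finset.card_le_card_of_injOn (fun J => ((if hh : φ (s (wd H J b0)) = z0 then
        (⟨wd H J b0, hh⟩ : {v : D → B // φ (s v) = z0}) else hne.some), H.res Y (fun l => J (b0, l))))
        (fun _ _ => Finset.mem_coe.mpr (Finset.mem_univ _))
      intro J hJ J' hJ' e
      rw [Finset.mem_coe, Finset.mem_filter] at hJ hJ'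
      obtain ⟨hJX, hJK⟩ := hJ
      obtain ⟨hJ'X, hJ'K⟩ := hJ'
      have e2 := (Prod.mk.inj e).1
      have e3 := (Prod.mk.inj e).2
      rw [dif_pos (hval0 J hJX hJK), dif_pos (hval0 J' hJ'X hJ'K)] at e2
      have e4 : wd H J b0 = wd H J' b0 := congrArg Subtype.val e2
      obtain ⟨_, t1, _⟩ := hmem J hJX hJK
      obtain ⟨_, t2, _⟩ := hmem J' hJ'X hJ'K
      have hblk : (fun l => J (b0, l)) = fun l => J' (b0, l) := by
        apply H.inj Y hY
        · intro l hl
          exact (t1 (b0, l) (fun e => hl e.2)).trans (t2 (b0, l) (fun e => hl e.2)).symm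
        · exact e4
        · exact e3
      funext c'
      by_cases hc' : c'.1 = b0
      · have e5 := congrFun hblk c'.2
        have hc'' : c' = (b0, c'.2) := Prod.ext hc' rfl
        rw [hc'']
        exact e5
      · exact (t1 c' (fun e => hc' e.1)).trans (t2 c' (fun e => hc' e.1)).symm
    have hfill := card_fill (P := P) (q := q) (w := w) hah hCF0 hm0 f0
    rw [← hKdef, Nat.card_eq_fintype_card (α := {J' // zro H a g x0 m P q w f0 J' = K}),
      Fintype.card_subtype] at hfill
    calc M * ((X.filter (fun J => zro H a g x0 m P q w f0 J = K)).card * Fintype.card B)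
        ≤ M * (Nat.card {v : D → B // φ (s v) = z0} * ρ * Fintype.card B) :=
          Nat.mul_le_mul_left _ (Nat.mul_le_mul_right _ hfib)
      _ = M * ρ * (Nat.card {v : D → B // φ (s v) = z0} * Fintype.card B) := by ring
      _ ≤ M * ρ * (p * Nat.card (D → B)) := Nat.mul_le_mul_left _ hcount
      _ = p * (M * (ρ * Nat.card (D → B))) := by ring
      _ ≤ p * ((M + 1) * Nat.card F ^ h) := Nat.mul_le_mul_left _ H.card
      _ ≤ p * ((M + 1) * (Finset.univ.filter (fun J => zro H a g x0 m P q w f0 J = K)).card) :=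
          Nat.mul_le_mul_left _ (Nat.mul_le_mul_left _ hfill)
      _ = _ := by ring
  -- all classes
  rw [Finset.card_eq_sum_card_image (zro H a g x0 m P q w f0) X, Finset.sum_mul, Finset.mul_sum]
  calc ∑ K ∈ X.image (zro H a g x0 m P q w f0),
        M * ((X.filter (fun J => zro H a g x0 m P q w f0 J = K)).card * Fintype.card B)
      ≤ ∑ K ∈ X.image (zro H a g x0 m P q w f0),
        (M + 1) * (p * (Finset.univ.filter (fun J => zro H a g x0 m P q w f0 J = K)).card) :=
        Finset.sum_le_sum hone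
    _ ≤ ∑ K : B × Λ → F, (M + 1) * (p * (Finset.univ.filter (fun J => zro H a g x0 m P q w f0 J = K)).card) :=
        Finset.sum_le_sum_of_subset (Finset.subset_univ _)
    _ = (M + 1) * (p * Fintype.card (B × Λ → F)) := by
        rw [← Finset.mul_sum, ← Finset.mul_sum, ← Finset.card_univ,
          Finset.card_eq_sum_card_fiberwise (f := zro H a g x0 m P q w f0) (t := Finset.univ)
            (fun _ _ => Finset.mem_coe.mpr (Finset.mem_univ _))]

end Pool.Agent.Helper78.NC
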